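import Pool.Agent.X230.MPrim
import Pool.Agent.NPC.Num

/-!
# A reset `m`-tuple of an `m`-primitive automaton can be found in polynomial time

In fact the `m`-tuple all of whose entries are `2 ^ (n (n + m + 3))` is a reset `m`-tuple of every
`m`-primitive automaton with `n` states and `m` actions. Polynomial time is Mathlib's
`Turing.TM2ComputableInPolyTime`; the encoding of the data by bit strings (`bits`: pairs and lists
as binary trees, numbers in binary) is that of `Pool.Agent.NPC.Defs`.
-/

namespace Pool.Agent.Results.MP_f1b42c_lc.ExplicitResetTuple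

open Finset Pool.Agent.NPC Pool.Agent.X230.MPrim Turing

variable {m n : ℕ}

/-- The `0`-`1` matrix of the action `i`. -/
def mat (a : Fin m → Fin n → Fin n) (i : Fin m) : Matrix (Fin n) (Fin n) ℕ :=
  fun q p => if a i p = q then 1 else 0

/-- The Hurwitz product: the sum, over all words `w` of length `|α|` that contain each letter `i`
exactly `α i` times, of the products of the matrices of the letters of `w`. -/
def hurwitz (a : Fin m → Fin n → Fin n) (α : Fin m → ℕ) : Matrix (Fin n) (Fin n) ℕ :=
  ∑ w ∈ univ.filter (fun w : Fin (∑ i, α i) → Fin m => ∀ i, (List.ofFn w).count i = α i),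
    ((List.ofFn w).map (mat a)).prod

/-- The automaton is `m`-primitive: some Hurwitz product is positive. -/
def MPrimitive (a : Fin m → Fin n → Fin n) : Prop :=
  ∃ α : Fin m → ℕ, 1 ≤ ∑ i, α i ∧ ∀ q p, 0 < hurwitz a α q p

/-- `α` is a reset `m`-tuple: there is a state `q₀` such that for every state `p` some word with
the letter counts `α` sends `p` to `q₀`. -/
def IsResetTuple (a : Fin m → Fin n → Fin n) (α : Fin m → ℕ) : Prop :=
  1 ≤ ∑ i, α i ∧ ∃ q₀ : Fin n, ∀ p : Fin n, ∃ w : List (Fin m), (∀ i, w.count i = α i) ∧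
    w.foldl (fun p i => a i p) p = q₀

/-- The `m` transition tables, as lists of numbers. -/
def table (a : Fin m → Fin n → Fin n) : List (List ℕ) :=
  List.ofFn fun i => List.ofFn fun p => ((a i p : Fin n) : ℕ)

lemma prod_apply (a : Fin m → Fin n → Fin n) : ∀ (w : List (Fin m)) (q p : Fin n),
    (w.map (mat a)).prod q p = if w.foldr (fun i p => a i p) p = q then 1 else 0 := by
  intro w
  induction w with
  | nil =>
    intro q p
    simp [Matrix.one_apply, eq_comm]
  | cons i w ih =>
    intro q p
    rw [List.map_cons, List.prod_cons, Matrix.mul_apply]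
    simp only [ih, mat]
    rw [Finset.sum_eq_single (w.foldr (fun i p => a i p) p)]
    · rw [if_pos rfl, mul_one]
      rfl
    · intro x _ hx
      rw [if_neg (Ne.symm hx), mul_zero]
    · intro h
      exact absurd (Finset.mem_univ _) h

lemma pos_of_mprimitive {a : Fin m → Fin n → Fin n} (h : MPrimitive a) :
    ∃ α : Fin m → ℕ, 1 ≤ ∑ i, α i ∧ Pos a α := by
  obtain ⟨α, h1, h2⟩ := h
  refine ⟨α, h1, fun p q => ?_⟩
  have h3 := h2 q p
  rw [hurwitz, Matrix.sum_apply] at h3
  obtain ⟨w, hw, h4⟩ := Finset.exists_ne_zero_of_sum_ne_zero h3.ne'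
  rw [prod_apply] at h4
  have h5 : (List.ofFn w).foldr (fun i p => a i p) p = q := by
    by_contra hne
    rw [if_neg hne] at h4
    exact h4 rfl
  refine ⟨(List.ofFn w).reverse, ?_, ?_⟩
  · rw [act, List.foldl_reverse]
    exact h5
  · funext i
    rw [cv, List.count_reverse]
    exact (Finset.mem_filter.mp hw).2 i

lemma bound (hn : 0 < n) (m : ℕ) :
    (n + 1) * n + (n + 1) ^ m * n.factorial * n ≤ 2 ^ (n * (n + m + 3)) := by
  have h1 : n + 1 ≤ 2 ^ n := Nat.lt_two_pow_self
  have h1' : n ≤ 2 ^ n := by omega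
  have h2 : n.factorial ≤ (2 ^ n) ^ n := (Nat.factorial_le_pow n).trans (Nat.pow_le_pow_left h1' n)
  have h3 : (n + 1) ^ m ≤ (2 ^ n) ^ m := Nat.pow_le_pow_left h1 m
  have h4 : (n + 1) ^ m * n.factorial * n ≤ (2 ^ n) ^ m * (2 ^ n) ^ n * 2 ^ n :=
    Nat.mul_le_mul (Nat.mul_le_mul h3 h2) h1'
  have h5 : (n + 1) * n ≤ 2 ^ n * 2 ^ n := Nat.mul_le_mul h1 h1'
  have h6 : (2 ^ n) ^ m * (2 ^ n) ^ n * 2 ^ n ≤ 2 ^ (n * m + n * n + 2 * n) := by
    rw [← pow_mul, ← pow_mul, ← pow_add, ← pow_add]
    exact Nat.pow_le_pow_right (by norm_num) (by omega)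
  have h7 : 2 ^ n * 2 ^ n ≤ 2 ^ (n * m + n * n + 2 * n) := by
    rw [← pow_add]
    exact Nat.pow_le_pow_right (by norm_num) (by omega)
  calc (n + 1) * n + (n + 1) ^ m * n.factorial * n
      ≤ 2 ^ (n * m + n * n + 2 * n) + 2 ^ (n * m + n * n + 2 * n) :=
        Nat.add_le_add (h5.trans h7) (h4.trans h6)
    _ = 2 ^ (n * m + n * n + 2 * n + 1) := by rw [pow_succ]; ring
    _ ≤ 2 ^ (n * (n + m + 3)) := by
        apply Nat.pow_le_pow_right (by norm_num)
        nlinarith

/-- The algorithm. -/
def algo (t : List (List ℕ)) : List ℕ :=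
  t.map fun _ => 2 ^ ((t.head?.getD []).length * ((t.head?.getD []).length + t.length + 3))

lemma poly_algo : NPC.Poly algo := by
  have hl : UPoly (fun t : List (List ℕ) => (t.head?.getD []).length) :=
    UPoly.length (NPC.Poly.head?_getD NPC.Poly.id [])
  have hm : UPoly (fun t : List (List ℕ) => t.length) := UPoly.length NPC.Poly.id
  have he : UPoly (fun t : List (List ℕ) =>
      (t.head?.getD []).length * ((t.head?.getD []).length + t.length + 3)) :=
    UPoly.mul hl (UPoly.add (UPoly.add hl hm) (UPoly.const 3))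
  have hb : NPC.Poly (fun t : List (List ℕ) => valB ((List.replicate ((t.head?.getD []).length *
      ((t.head?.getD []).length + t.length + 3)) ()).map (fun _ => false) ++ [true])) :=
    NPC.Poly.valBits (NPC.Poly.append (NPC.Poly.map he (F := fun _ _ => false) (NPC.Poly.const false))
      (NPC.Poly.const [true]))
  have hp : NPC.Poly (fun t : List (List ℕ) =>
      2 ^ ((t.head?.getD []).length * ((t.head?.getD []).length + t.length + 3))) := by
    refine hb.congr fun t => ?_
    rw [valB_append]
    have : ∀ k, valB ((List.replicate k ()).map (fun _ => false)) = 0 := by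
      intro k
      induction k with
      | zero => rfl
      | succ k ih => simpa [List.replicate_succ] using ih
    rw [this]
    simp
  exact NPC.Poly.map NPC.Poly.id (F := fun (t : List (List ℕ)) (_ : List ℕ) =>
    2 ^ ((t.head?.getD []).length * ((t.head?.getD []).length + t.length + 3)))
    (hp.comp (NPC.Poly.fst NPC.Poly.id))

/-- A program gives a Turing machine. -/
theorem toTM {α β : Type} {ea : α → List Bool} {eb : β → List Bool} {f : α → β}
    (h : PC ea eb f) : Nonempty (TM2ComputableInPolyTime ea eb f) := by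
  obtain ⟨c, p, h⟩ := h
  have key : ∀ x : α, ∃ t, t ≤ p.eval (ea x).length + 1 ∧
      Nonempty (TM2OutputsInTime (c.map (Fin.ofNat (c.bd + 1))).toTM (ea x) (some (eb (f x))) t) := by
    intro x
    obtain ⟨t, ht, hr⟩ := h x
    have h1 := hr.restrict (n := c.bd) (by omega)
    refine ⟨t + 1, by omega, toTM_outputs ?_⟩
    convert! h1 using 1
    · funext i
      by_cases hi : i = 0
      · subst hi; simp [inp]
      · have : (i : ℕ) ≠ 0 := fun h => hi (Fin.ext h)
        simp [inp, hi, this]
    · funext i
      by_cases hi : i = 0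
      · subst hi; simp [inp]
      · have : (i : ℕ) ≠ 0 := fun h => hi (Fin.ext h)
        simp [inp, hi, this]
  refine ⟨{ tm := (c.map (Fin.ofNat (c.bd + 1))).toTM
            inputAlphabet := Equiv.refl Bool
            outputAlphabet := Equiv.refl Bool
            time := p + 1
            outputsFun := ?_ }⟩
  intro x
  have hx := key x
  have ht := hx.choose_spec.1
  have hm := hx.choose_spec.2.some
  refine outputs_conv (List.map_id (ea x)).symm (List.map_id (eb (f x))).symm (ht.trans ?_) hm
  simp

/-- **A reset `m`-tuple of an `m`-primitive automaton can be found in polynomial time**: there is a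
function `f`, computed by a Turing machine in polynomial time, that maps the tables of every
`m`-primitive automaton to a reset `m`-tuple of it (numbers are written in binary). The size of the
input is at most `(6 n ^ 2 + 2) m + 1`, so the running time is polynomial in `n` and `m`.
Moreover, the reset `m`-tuple depends only on `n` and `m`: all its entries are equal to
`2 ^ (n (n + m + 3))`, and for every state `q₀` it sends all the states to `q₀`. -/
theorem result :
    (∃ f : List (List ℕ) → List ℕ, Nonempty (TM2ComputableInPolyTime bits bits f) ∧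
      ∀ (m n : ℕ), 0 < n → ∀ a : Fin m → Fin n → Fin n, MPrimitive a →
        ∃ α : Fin m → ℕ, f (table a) = List.ofFn α ∧ IsResetTuple a α) ∧
    (∀ (m n : ℕ), 0 < n → ∀ a : Fin m → Fin n → Fin n,
      (bits (table a)).length ≤ (6 * n ^ 2 + 2) * m + 1) ∧
    (∀ (m n : ℕ), 0 < n → ∀ a : Fin m → Fin n → Fin n, MPrimitive a →
      IsResetTuple a (fun _ => 2 ^ (n * (n + m + 3))) ∧
      ∀ p q₀ : Fin n, ∃ w : List (Fin m), (∀ i, w.count i = 2 ^ (n * (n + m + 3))) ∧
        w.foldl (fun p i => a i p) p = q₀) := by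
  have key : ∀ (m n : ℕ), 0 < n → ∀ a : Fin m → Fin n → Fin n, MPrimitive a →
      IsResetTuple a (fun _ => 2 ^ (n * (n + m + 3))) ∧
      ∀ p q₀ : Fin n, ∃ w : List (Fin m), (∀ i, w.count i = 2 ^ (n * (n + m + 3))) ∧
        w.foldl (fun p i => a i p) p = q₀ := by
    intro m n hn a ha
    obtain ⟨α, h1, h2⟩ := pos_of_mprimitive ha
    have h3 := pos_of_large a hn h2 (bound hn m)
    have h4 : ∀ p q₀ : Fin n, ∃ w : List (Fin m), (∀ i, w.count i = 2 ^ (n * (n + m + 3))) ∧
        w.foldl (fun p i => a i p) p = q₀ := by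
      intro p q
      obtain ⟨w, h5, h6⟩ := h3 p q
      exact ⟨w, fun i => congrFun h6 i, h5⟩
    refine ⟨⟨?_, ⟨0, hn⟩, fun p => h4 p ⟨0, hn⟩⟩, h4⟩
    have hm : 0 < m := by
      rcases Nat.eq_zero_or_pos m with h | h
      · subst h
        simp at h1
      · exact h
    rw [Finset.sum_const, smul_eq_mul, Finset.card_univ, Fintype.card_fin]
    exact Nat.succ_le_of_lt (Nat.mul_pos hm (by positivity))
  refine ⟨⟨algo, toTM poly_algo, ?_⟩, ?_, key⟩
  · intro m n hn a ha
    refine ⟨fun _ => 2 ^ (n * (n + m + 3)), ?_, (key m n hn a ha).1⟩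
    have hm : 0 < m := by
      obtain ⟨α, h1, -⟩ := ha
      rcases Nat.eq_zero_or_pos m with h | h
      · subst h
        simp at h1
      · exact h
    obtain ⟨m, rfl⟩ : ∃ m', m = m' + 1 := ⟨m - 1, by omega⟩
    have h1 : ((table a).head?.getD []).length = n := by
      simp [table, List.ofFn_succ]
    have h2 : (table a).length = m + 1 := by simp [table]
    rw [algo, h1, h2]
    apply List.ext_getElem
    · simp [table]
    · intro i h3 h4
      rw [List.getElem_map, List.getElem_ofFn]
  · intro m n hn a
    rw [bits_length]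
    have h1 : ∀ l ∈ table a, sz l ≤ 6 * n ^ 2 + 1 := by
      intro l hl
      obtain ⟨i, rfl⟩ := (List.mem_ofFn' _ _).mp hl
      have h2 : ∀ x ∈ List.ofFn (fun p => ((a i p : Fin n) : ℕ)), sz x ≤ 4 * n + 1 := by
        intro x hx
        obtain ⟨p, rfl⟩ := (List.mem_ofFn' _ _).mp hx
        have h3 := sz_nat_le ((a i p : Fin n) : ℕ)
        have h4 : ((a i p : Fin n) : ℕ).size ≤ n :=
          Nat.size_le.mpr ((a i p).2.trans Nat.lt_two_pow_self)
        show sz ((a i p : Fin n) : ℕ) ≤ _
        omega
      have h3 := sz_le_length_mul _ _ h2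
      rw [List.length_ofFn] at h3
      refine h3.trans ?_
      nlinarith
    have h2 := sz_le_length_mul _ _ h1
    rw [table, List.length_ofFn] at h2
    rw [table]
    nlinarith

end Pool.Agent.Results.MP_f1b42c_lc.ExplicitResetTuple
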